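import Mathlib
import Pool.Agent.QL543.Fin
import Pool.Agent.QS543.Main

/-!
# The rank and `Ш[3]` in a family of cubic twists over `ℚ`

`D` runs over the cube-free numbers prime to `3`, not `±1` modulo `9`, with exactly one prime factor
`≡ 2` modulo `3`; `C_D` is the cubic `x³ + y³ = D`, in Weierstrass form `y² = x³ - 432 D²`, and
`E_D : y² + D y = x³` is the `3`-isogenous curve.  Let `W` be `E_D` or `C_D`.

* If `D` has `3 ^ (s + 1)` splittings (a finite set defined by cubic residues between the prime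
  factors of `D`), then `Ш(W/ℚ)[3]` is finite and `3 ^ rank W(ℚ) * #Ш(W/ℚ)[3] ≤ 9 ^ s`; more generally
  `3 ^ (n * rank W(ℚ)) * #Ш(W/ℚ)[3 ^ n] ≤ 9 ^ (n * s)` for all `n`.  (So `Ш(W/ℚ)[3^∞] = 0` if the rank
  is `2 s`, and if `s = 0`.)
* The proportion of the `D` with `rank W(ℚ) + dim Ш(W/ℚ)[3] > 2 r` for one of the two curves is at most
  `∑_{i > r} P_i + O((log X)^(-1/30))`, uniformly in `r`, with
  `P_s = 3^(-s²) ∏_{i ≥ 1} (1 - 3^(-i)) / ∏_{i = 1}^s (1 - 3^(-i))²`. So `rank + dim Ш[3] ≤ 2` for at least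
  `98` per cent of the `D`, and the average of `rank + dim Ш[3]` is at most `0.92`; all its moments are
  bounded.

The restriction to `ℚ(ω)`, the action of complex conjugation and the passage from the `√-3`-Selmer
group over `ℚ(ω)` to `Ш[3]` over `ℚ` are in `Pool/Agent/QS543` (helper543). The arithmetic over `ℚ(ω)`
and the counting of prime factors are joint work of many agents, see `Pool/Agent/Y703/CT`,
`Pool/Agent/Y703/CX`, `Pool/Agent/Y696/XL`, `Pool/Agent/R419/CF`, `Pool/Agent/R419/KL`,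
`Pool/Agent/QL543`.
-/

set_option autoImplicit false

open scoped Classical

namespace Pool.Agent.Results.MP_e23604_nt.CubicTwistShaRank

/-- the curve `E_D : y² + D y = x³` over `ℚ` -/
def E (D : ℕ) : WeierstrassCurve ℚ := { a₁ := 0, a₂ := 0, a₃ := (D : ℚ), a₄ := 0, a₆ := 0 }

/-- the curve `C_D : y² = x³ - 432 D²` over `ℚ`, the Weierstrass form of the cubic `x³ + y³ = D` -/
def C (D : ℕ) : WeierstrassCurve ℚ :=
  { a₁ := 0, a₂ := 0, a₃ := 0, a₄ := 0, a₆ := -432 * (D : ℚ) ^ 2 }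

/-- the elements of the Tate-Shafarevich group of `W` over `ℚ` killed by `3 ^ n` -/
def Sha3 (W : WeierstrassCurve ℚ) (n : ℕ) : Type :=
  {x : Pool.Agent.TH841.SH.D.Sha W // 3 ^ n • x = 0}

/-- the rank of `W(ℚ)` -/
noncomputable def rank (W : WeierstrassCurve ℚ) : ℕ := Module.finrank ℤ W.toAffine.Point

/-- the dimension of `Ш(W/ℚ)[3]` over the field with three elements -/
noncomputable def dim (W : WeierstrassCurve ℚ) : ℕ := Nat.log 3 (Nat.card (Sha3 W 1))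

/-- the larger one of the numbers `rank W(ℚ) + dim Ш(W/ℚ)[3]` for the two curves -/
noncomputable def t (D : ℕ) : ℕ := max (rank (E D) + dim (E D)) (rank (C D) + dim (C D))

/-- the class: `D` cube-free, prime to `3`, not `±1` modulo `9`, exactly one prime factor
congruent to `2` modulo `3` -/
def Class (D : ℕ) : Prop :=
  D ≠ 0 ∧ (∀ p : ℕ, p.Prime → ¬ p ^ 3 ∣ D) ∧ ¬ 3 ∣ D ∧ D % 9 ≠ 1 ∧ D % 9 ≠ 8 ∧
    ∃ q : ℕ, q.Prime ∧ q % 3 = 2 ∧ q ∣ D ∧ ∀ p : ℕ, p.Prime → p ∣ D → p ≠ q → p % 3 = 1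

/-- the numbers of the class up to `X` -/
noncomputable def Cl (X : ℕ) : Finset ℕ := (Finset.Icc 1 X).filter Class

/-- the splittings of `D`: the families `(d₀, d₁, d₂)` of pairwise coprime numbers with product `D`
such that `d₁ d₂²`, `d₂ d₀²`, `d₀ d₁²` are cubes modulo the primes dividing `d₀`, `d₁`, `d₂` -/
def Splittings (D : ℕ) : Set (ZMod 3 → ℕ) :=
  {d | ∏ c, d c = D ∧ (∀ c c', c ≠ c' → Nat.Coprime (d c) (d c')) ∧
    ∀ (c : ZMod 3) (p : ℕ), p.Prime → p ∣ d c →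
      ∃ x : ℤ, (p : ℤ) ∣ (d (c + 1) : ℤ) * (d (c + 2) : ℤ) ^ 2 - x ^ 3}

/-- the number `P_s = 3^(-s²) ∏_{i ≥ 1} (1 - 3^(-i)) / ∏_{i = 1}^s (1 - 3^(-i))²` -/
noncomputable def P (s : ℕ) : ℝ :=
  (1 / 3 : ℝ) ^ (s ^ 2) * (∏' i : ℕ, (1 - (1 / 3 : ℝ) ^ (i + 1))) /
    (∏ i ∈ Finset.range s, (1 - (1 / 3 : ℝ) ^ (i + 1))) ^ 2

theorem class_iff (D : ℕ) : Class D ↔ Pool.Agent.Y703.CT.Cls D := by
  unfold Class Pool.Agent.Y703.CT.Cls Pool.Agent.Y703.CT.Base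
  constructor
  · rintro ⟨h1, h2, h3, h4, h5, h6⟩
    exact ⟨⟨h1, h3, h2⟩, h4, h5, h6⟩
  · rintro ⟨⟨h1, h3, h2⟩, h4, h5, h6⟩
    exact ⟨h1, h2, h3, h4, h5, h6⟩

theorem Cl_eq (X : ℕ) : Cl X = (Finset.Icc 1 X).filter Pool.Agent.Y703.CT.Cls := by
  unfold Cl
  exact Finset.filter_congr fun D _ => class_iff D

theorem filter_eq (X : ℕ) (T : ℕ → Prop) {h1 : DecidablePred T}
    {h2 : DecidablePred fun D => Pool.Agent.Y703.CT.Cls D ∧ T D} :
    (((@Finset.filter ℕ T h1 (Cl X)).card : ℕ) : ℝ) =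
      (((@Finset.filter ℕ (fun D => Pool.Agent.Y703.CT.Cls D ∧ T D) h2 (Finset.Icc 1 X)).card : ℕ)
        : ℝ) := by
  congr 2
  ext D
  rw [Finset.mem_filter, Finset.mem_filter, Cl_eq, Finset.mem_filter, and_assoc]

theorem E_eq (D : ℕ) : Pool.Agent.Y703.CT.EQ (Pool.Agent.Y703.CT.WD D) = E D := by
  unfold Pool.Agent.Y703.CT.EQ Pool.Agent.Y703.CT.WD E WeierstrassCurve.map
  simp

/-- the arithmetic part, for the number `s` -/
theorem arith {D : ℕ} (hD : Pool.Agent.Y703.CT.Cls D) {s : ℕ}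
    (hs : (Pool.Agent.QL543.Spl D).ncard = 3 ^ (s + 1)) :
    ∀ W : WeierstrassCurve ℚ, (W = E D ∨ W = C D) →
      (∀ n : ℕ, Finite (Sha3 W n) ∧ 3 ^ (n * rank W) * Nat.card (Sha3 W n) ≤ 9 ^ (n * s)) ∧
      Nat.card (Sha3 W 1) = 3 ^ dim W ∧ rank W + dim W ≤ 2 * s := by
  obtain ⟨⟨h1, h2⟩, h3, h4⟩ := Pool.Agent.QS543.bound hD hs
  have key : ∀ W : WeierstrassCurve ℚ, Finite (Pool.Agent.QS543.X3 W) →
      3 ^ rank W * Nat.card (Pool.Agent.QS543.X3 W) ≤ 9 ^ s →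
      (∀ n : ℕ, Finite (Sha3 W n) ∧ 3 ^ (n * rank W) * Nat.card (Sha3 W n) ≤ 9 ^ (n * s)) ∧
      Nat.card (Sha3 W 1) = 3 ^ dim W ∧ rank W + dim W ≤ 2 * s := by
    intro W k1 k2
    obtain ⟨k3, k4, k5⟩ := Pool.Agent.QS543.all_n k1 k2
    refine ⟨fun n => ?_, k4, k5⟩
    rw [mul_comm n, mul_comm n, pow_mul, pow_mul]
    exact k3 n
  rintro W (rfl | rfl)
  · rw [E_eq] at h1 h2
    exact key (E D) h1 h2
  · exact key (C D) h3 h4

open Filter in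
theorem ev_iff {p : ℕ → Prop} (h : ∀ᶠ X : ℕ in atTop, p X) : ∃ X₀ : ℕ, ∀ X : ℕ, X₀ ≤ X → p X :=
  eventually_atTop.1 h

/-- **Theorem.** Every `D` of the class has `3 ^ (s + 1)` splittings for some `s`, and then for
`W = E_D` and `W = C_D` the groups `Ш(W/ℚ)[3 ^ n]` are finite, of order at most
`3 ^ (n * (2 * s - rank W(ℚ)))`; in particular `rank W(ℚ) + dim Ш(W/ℚ)[3] ≤ 2 s`. The number of the `D` of
the class up to `X` is at least `c X / √(log X)`. The proportion of the `D` for which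
`t(D) = max (rank + dim Ш[3])` is larger than `2 r` is at most `∑_{i > r} P_i + O((log X)^(-1/30))`,
uniformly in `r`, where `∑ P_s = 1` and `∑_{i ≥ s} P_i ≤ 3 * 3^(-s²)`; and for every `k` the upper limit
of the average of `t(D) ^ k` is at most `∑_s (2 s)^k P_s`, a finite number, which is less than `0.92` for
`k = 1` and less than `2` for `k = 2`. -/
theorem result :
    -- the Tate-Shafarevich groups and the ranks
    (∀ D : ℕ, Class D → ∃ s : ℕ, (Splittings D).ncard = 3 ^ (s + 1) ∧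
      ∀ W : WeierstrassCurve ℚ, (W = E D ∨ W = C D) →
        (∀ n : ℕ, Finite (Sha3 W n) ∧ 3 ^ (n * rank W) * Nat.card (Sha3 W n) ≤ 9 ^ (n * s)) ∧
        Nat.card (Sha3 W 1) = 3 ^ dim W ∧ rank W + dim W ≤ 2 * s) ∧
    -- the size of the class
    (∃ c : ℝ, 0 < c ∧ ∃ X₀ : ℕ, ∀ X : ℕ, X₀ ≤ X →
      c * X / Real.sqrt (Real.log X) ≤ ((Cl X).card : ℝ)) ∧
    -- the limit distribution
    ((∀ s : ℕ, 0 ≤ P s) ∧ HasSum P 1 ∧
      ∀ s : ℕ, 1 - ∑ i ∈ Finset.range s, P i ≤ 3 * (1 / 3 : ℝ) ^ (s ^ 2)) ∧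
    -- the tails, uniformly in `r`
    (∃ (A : ℝ) (X₀ : ℕ), ∀ X : ℕ, X₀ ≤ X → ∀ r : ℕ,
      (((Cl X).filter fun D => 2 * r < t D).card : ℝ) ≤
        ((1 - ∑ i ∈ Finset.range (r + 1), P i) + A * (Real.log X) ^ (-(1 / 30) : ℝ)) *
          ((Cl X).card : ℝ)) ∧
    -- all moments
    (∀ k : ℕ, (Summable fun s : ℕ => (2 * (s : ℝ)) ^ k * P s) ∧
      ∀ ε : ℝ, 0 < ε → ∃ X₀ : ℕ, ∀ X : ℕ, X₀ ≤ X →
        ∑ D ∈ Cl X, (t D : ℝ) ^ k ≤
          (∑' s : ℕ, (2 * (s : ℝ)) ^ k * P s + ε) * ((Cl X).card : ℝ)) ∧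
    -- numerical values
    1 - ∑ i ∈ Finset.range 2, P i < 0.02 ∧ ∑' s : ℕ, (2 * (s : ℝ)) ^ 1 * P s < 0.92 ∧
      ∑' s : ℕ, (2 * (s : ℝ)) ^ 2 * P s < 2 := by
  have hrk : ∀ D : ℕ, Pool.Agent.Y703.CT.Cls D → t D ≤ 2 * Pool.Agent.QL543.sd D := by
    intro D hD
    have h := arith hD (Pool.Agent.QL543.sd_spec hD)
    exact max_le (h _ (Or.inl rfl)).2.2 (h _ (Or.inr rfl)).2.2
  refine ⟨?_, ?_, ⟨Pool.Agent.QL543.pr_nonneg, Pool.Agent.QL543.pr_sum,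
    Pool.Agent.QL543.pr_tail⟩, ?_, ?_, ?_, Pool.Agent.QL543.mom_one,
    Pool.Agent.QL543.mom_two⟩
  · intro D hD
    have hD' := (class_iff D).1 hD
    exact ⟨Pool.Agent.QL543.sd D, Pool.Agent.QL543.sd_spec hD',
      arith hD' (Pool.Agent.QL543.sd_spec hD')⟩
  · obtain ⟨c, hc, X₀, h⟩ := Pool.Agent.R419.CF.low
    refine ⟨c, hc, X₀, fun X hX => ?_⟩
    rw [Cl_eq]
    exact h X hX
  · obtain ⟨A, hA, h⟩ := Pool.Agent.QL543.tail_rk hrk
    obtain ⟨X₀, h⟩ := ev_iff (h.and (Pool.Agent.Y703.CX.ev_eL 1))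
    refine ⟨A, X₀, fun X hX r => ?_⟩
    obtain ⟨h1, h2⟩ := h X hX
    have h3 := h1 r
    rw [Pool.Agent.Y703.CX.rpow_eL (by linarith), filter_eq X, Cl_eq]
    exact h3
  · intro k
    refine ⟨Pool.Agent.QL543.mom_sum k, fun ε hε => ?_⟩
    obtain ⟨X₀, h⟩ := ev_iff (Pool.Agent.QL543.mom_rk hrk k ε hε)
    refine ⟨X₀, fun X hX => ?_⟩
    rw [Cl_eq]
    exact h X hX
  · have h : ∀ s, P s = Pool.Agent.QL543.pr s := fun s => rfl
    have h0 : P 0 = Pool.Agent.Y703.CX.c3 := by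
      unfold P Pool.Agent.Y703.CX.c3
      norm_num
    rw [Finset.sum_range_succ, Finset.sum_range_succ, Finset.sum_range_zero, h0, h 1,
      Pool.Agent.QL543.pr_one]
    have h2 := Pool.Agent.QL543.c3_gt
    linarith

end Pool.Agent.Results.MP_e23604_nt.CubicTwistShaRank
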